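import Pool.Agent.KS6_31.NA2

set_option autoImplicit false

/-
Neighbouring versus antipodal pairs: a two-set inequality in every dimension, with explicit
constants, without hypothesis on the number of points, containing the posed inequality.
-/

namespace Pool.Agent.Results.MP_5d5585_co.TwoSets

open Finset Classical

/-- Twice the number of `ε`-neighbouring pairs of `X` (ordered pairs of distinct points). -/
noncomputable def N {d : ℕ} (ε : ℝ) (X : Finset (EuclideanSpace ℝ (Fin d))) : ℝ :=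
  ((X.offDiag.filter fun p => dist p.1 p.2 ≤ ε).card : ℝ)

/-- Twice the number of `ε`-antipodal pairs of `X` (ordered pairs of distinct points). -/
noncomputable def A {d : ℕ} (ε : ℝ) (X : Finset (EuclideanSpace ℝ (Fin d))) : ℝ :=
  ((X.offDiag.filter fun p => 1 - ε ≤ dist p.1 p.2).card : ℝ)

/-- Number of pairs `(x, y)` with `x` in `X`, `y` in `Y` and `|x - y| ≥ 1 - ε`. -/
noncomputable def far {d : ℕ} (ε : ℝ) (X Y : Finset (EuclideanSpace ℝ (Fin d))) : ℝ :=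
  (((X ×ˢ Y).filter fun p => 1 - ε ≤ dist p.1 p.2).card : ℝ)

/-- The function `g_d` of the problem. -/
noncomputable def g (d : ℕ) (ε₁ ε₂ : ℝ) : ℝ :=
  if ε₁ ≤ ε₂ then ε₁ ^ (d : ℝ) * ε₂ ^ (-(((d : ℝ) + 1) / 2)) else ε₁ ^ (((d : ℝ) - 1) / 2)

/-- The explicit constant. -/
noncomputable def K (d : ℕ) : ℝ :=
  1 / (14 * d ^ 3 * (2 * d + 1) * (224 * (d + 3) * d ^ 2) ^ (d - 1))

/-- `d ≥ 1`, `0 < ε₁, ε₂ < 1`.
(1) For all finite `X, Y` with all CROSS distances at most `1` (nothing on the diameters of `X`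
and of `Y`): `K g #{(x,y) : |x-y| ≥ 1-ε₂} ≤ sqrt((|X| + N(X)) (|Y| + N(Y)))`.
(2) For `diam X ≤ 1` and no condition on `|X|`: `K g A(X) ≤ N(X) + |X|`.
(3) The posed inequality, with explicit constants. -/
theorem result (d : ℕ) (hd : 1 ≤ d) (ε₁ ε₂ : ℝ) (a0 : 0 < ε₁) (a1 : ε₁ < 1) (b0 : 0 < ε₂)
    (b1 : ε₂ < 1) :
    (∀ X Y : Finset (EuclideanSpace ℝ (Fin d)), (∀ x ∈ X, ∀ y ∈ Y, dist x y ≤ 1) →
      K d * g d ε₁ ε₂ * far ε₂ X Y ≤ √((X.card + N ε₁ X) * (Y.card + N ε₁ Y))) ∧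
    (∀ X : Finset (EuclideanSpace ℝ (Fin d)), (∀ x ∈ X, ∀ y ∈ X, dist x y ≤ 1) →
      K d * g d ε₁ ε₂ * A ε₂ X ≤ X.card + N ε₁ X) ∧
    (∀ X : Finset (EuclideanSpace ℝ (Fin d)), (∀ x ∈ X, ∀ y ∈ X, dist x y ≤ 1) →
      2 * (3 * (d : ℝ)) ^ d * ε₁ ^ (-(d : ℝ)) ≤ X.card →
      K d / 2 * g d ε₁ ε₂ * A ε₂ X ≤ N ε₁ X) := by
  obtain ⟨m, rfl⟩ : ∃ m, d = m + 1 := ⟨d - 1, by omega⟩
  have hm : (0 : ℝ) ≤ m := Nat.cast_nonneg _
  have near : ∀ X : Finset (EuclideanSpace ℝ (Fin (m + 1))),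
      (((X ×ˢ X).filter (fun p => dist p.1 p.2 ≤ ε₁)).card : ℝ) = X.card + N ε₁ X := by
    intro X
    have : (X ×ˢ X).filter (fun p => dist p.1 p.2 ≤ ε₁) =
        X.diag ∪ X.offDiag.filter (fun p => dist p.1 p.2 ≤ ε₁) := by
      ext ⟨x, y⟩
      simp only [mem_filter, mem_product, mem_union, mem_diag, mem_offDiag]
      constructor
      · rintro ⟨⟨h1, h2⟩, h3⟩
        by_cases h : x = y
        · exact Or.inl ⟨h1, h⟩
        · exact Or.inr ⟨⟨h1, h2, h⟩, h3⟩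
      · rintro (⟨h1, rfl⟩ | ⟨⟨h1, h2, -⟩, h3⟩)
        · exact ⟨⟨h1, h1⟩, by rw [dist_self]; exact a0.le⟩
        · exact ⟨⟨h1, h2⟩, h3⟩
    rw [this, card_union_of_disjoint, diag_card, Nat.cast_add, N]
    rw [disjoint_left]
    rintro ⟨x, y⟩ h1 h2
    exact (mem_offDiag.mp (mem_filter.mp h2).1).2.2 (mem_diag.mp h1).2
  have fr : ∀ X : Finset (EuclideanSpace ℝ (Fin (m + 1))), A ε₂ X ≤ far ε₂ X X := by
    intro X
    rw [A, far, Nat.cast_le]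
    refine card_le_card fun p hp => ?_
    rw [mem_filter] at hp ⊢
    exact ⟨mem_product.mpr ⟨(mem_offDiag.mp hp.1).1, (mem_offDiag.mp hp.1).2.1⟩, hp.2⟩
  have sq : ∀ {e : ℝ}, 0 < e → ∀ k : ℕ, e ^ ((k : ℝ) / 2) = √e ^ k := fun he k => by
    rw [Real.sqrt_eq_rpow, ← Real.rpow_natCast, ← Real.rpow_mul he.le]
    congr 1
    ring
  have K0 : 0 < K (m + 1) := by unfold K; positivity
  have g0 : 0 < g (m + 1) ε₁ ε₂ := by unfold g; split_ifs <;> positivity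
  obtain ⟨L, hL⟩ : ∃ L : ℝ, L = 2 * (m + 1) * ((16 * ((2 * m + 8) * (7 * (m + 1) ^ 2))) ^ m *
      ((2 * m + 3) * (7 * (m + 1) ^ 2))) := ⟨_, rfl⟩
  have hKL : K (m + 1) * L = 1 := by
    have e1 : (14 * ((m + 1 : ℕ) : ℝ) ^ 3 * (2 * ((m + 1 : ℕ) : ℝ) + 1) *
        (224 * (((m + 1 : ℕ) : ℝ) + 3) * ((m + 1 : ℕ) : ℝ) ^ 2) ^ (m + 1 - 1)) = L := by
      rw [hL, Nat.add_sub_cancel]
      push_cast
      rw [show (224 * ((m : ℝ) + 1 + 3) * ((m : ℝ) + 1) ^ 2) =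
        16 * ((2 * m + 8) * (7 * (m + 1) ^ 2)) by ring]
      ring
    have L0 : 0 < L := by rw [hL]; positivity
    rw [K, e1]
    field_simp
  have one : ∀ X Y : Finset (EuclideanSpace ℝ (Fin (m + 1))), (∀ x ∈ X, ∀ y ∈ Y, dist x y ≤ 1) →
      K (m + 1) * g (m + 1) ε₁ ε₂ * far ε₂ X Y ≤ √((X.card + N ε₁ X) * (Y.card + N ε₁ Y)) := by
    intro X Y hX
    by_cases h : ε₁ ≤ ε₂
    · have h1 := Pool.Agent.KS6_31.NA.cross m X Y a0 h le_rfl b1 hX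
      rw [← hL, near, near] at h1
      refine (mul_le_mul_of_nonneg_left h1 (mul_pos K0 g0).le).trans (le_of_eq ?_)
      rw [show K (m + 1) * g (m + 1) ε₁ ε₂ * (L * ((√ε₂ / ε₁) ^ m * (ε₂ / ε₁)) *
        √((X.card + N ε₁ X) * (Y.card + N ε₁ Y))) = (K (m + 1) * L) *
        (g (m + 1) ε₁ ε₂ * ((√ε₂ / ε₁) ^ m * (ε₂ / ε₁))) *
        √((X.card + N ε₁ X) * (Y.card + N ε₁ Y)) by ring, hKL, one_mul]
      have : g (m + 1) ε₁ ε₂ * ((√ε₂ / ε₁) ^ m * (ε₂ / ε₁)) = 1 := by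
        rw [g, if_pos h, Real.rpow_neg b0.le, Real.rpow_natCast,
          show ((m + 1 : ℕ) : ℝ) + 1 = ((m + 2 : ℕ) : ℝ) by push_cast; ring, sq b0]
        have := Real.sqrt_pos.mpr b0
        have h5 := Real.mul_self_sqrt b0.le
        generalize √ε₂ = s at *
        rw [← h5, div_pow]
        field_simp
        ring
      rw [this, one_mul]
    · have h' := not_le.mp h
      have h1 := Pool.Agent.KS6_31.NA.cross m X Y a0 le_rfl h'.le a1 hX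
      rw [← hL, near, near] at h1
      refine (mul_le_mul_of_nonneg_left h1 (mul_pos K0 g0).le).trans (le_of_eq ?_)
      rw [show K (m + 1) * g (m + 1) ε₁ ε₂ * (L * ((√ε₁ / ε₁) ^ m * (ε₁ / ε₁)) *
        √((X.card + N ε₁ X) * (Y.card + N ε₁ Y))) = (K (m + 1) * L) *
        (g (m + 1) ε₁ ε₂ * ((√ε₁ / ε₁) ^ m * (ε₁ / ε₁))) *
        √((X.card + N ε₁ X) * (Y.card + N ε₁ Y)) by ring, hKL, one_mul]
      have : g (m + 1) ε₁ ε₂ * ((√ε₁ / ε₁) ^ m * (ε₁ / ε₁)) = 1 := by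
        rw [g, if_neg h, show ((m + 1 : ℕ) : ℝ) - 1 = (m : ℝ) by push_cast; ring, sq a0]
        have := Real.sqrt_pos.mpr a0
        have h5 := Real.mul_self_sqrt a0.le
        generalize √ε₁ = s at *
        rw [← h5, div_pow, mul_pow]
        field_simp
      rw [this, one_mul]
  have N0 : ∀ X : Finset (EuclideanSpace ℝ (Fin (m + 1))), 0 ≤ (X.card : ℝ) + N ε₁ X := fun X =>
    add_nonneg (Nat.cast_nonneg _) (by unfold N; exact Nat.cast_nonneg _)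
  have two : ∀ X : Finset (EuclideanSpace ℝ (Fin (m + 1))), (∀ x ∈ X, ∀ y ∈ X, dist x y ≤ 1) →
      K (m + 1) * g (m + 1) ε₁ ε₂ * A ε₂ X ≤ X.card + N ε₁ X := by
    intro X hX
    refine (mul_le_mul_of_nonneg_left (fr X) (mul_pos K0 g0).le).trans ((one X X hX).trans ?_)
    rw [Real.sqrt_mul_self (N0 X)]
  refine ⟨one, two, fun X hX hc => ?_⟩
  rw [Real.rpow_neg a0.le, Real.rpow_natCast, mul_assoc, ← div_eq_mul_inv, ← div_pow] at hc
  have h1 := Pool.Agent.KS6_31.NA.many m X a0 a1.le hX (by push_cast at hc; exact hc)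
  rw [near] at h1
  have h2 := two X hX
  linarith

end Pool.Agent.Results.MP_5d5585_co.TwoSets
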